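import Mathlib

universe u

open Cardinal

namespace Pool.Agent.Results.MP_dc3585_lc.Finite

theorem thin {S J : Type*} [LinearOrder J] [WellFoundedLT J] (f : S → J) (B : Set S)
    (hB : ¬ B.Countable) (hf : ∀ j, {y ∈ B | f y = j}.Countable) :
    ∃ B' ⊆ B, ¬ B'.Countable ∧ ∀ x ∈ B', {y ∈ B' | f y ≤ f x}.Countable := by
  by_cases h : ∃ j, ¬ {y ∈ B | f y ≤ j}.Countable
  · obtain ⟨j, hj, hmin⟩ := (wellFounded_lt (α := J)).has_min _ h
    refine ⟨{y ∈ B | f y < j}, fun y hy => hy.1, fun hc => hj ?_, fun x hx => ?_⟩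
    · refine (hc.union (hf j)).mono fun y hy => ?_
      rcases hy.2.lt_or_eq with h1 | h1
      · exact Or.inl ⟨hy.1, h1⟩
      · exact Or.inr ⟨hy.1, h1⟩
    · by_contra hc
      exact hmin (f x) (fun h2 => hc (h2.mono fun y hy => by exact ⟨hy.1.1, hy.2⟩)) hx.2
  · push Not at h
    exact ⟨B, subset_rfl, hB, fun x _ => h _⟩

theorem upper {S : Type*} (ρ : S → ℝ) (B : Set S) (hB : ¬ B.Countable)
    (hf : ∀ t, {y ∈ B | ρ y = t}.Countable) : ∃ x ∈ B, ¬ {y ∈ B | ρ x < ρ y}.Countable := by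
  by_contra hcon
  push Not at hcon
  apply hB
  have h1 : ∀ q : ℚ, {y ∈ B | (∃ x ∈ B, ρ x < q) ∧ (q : ℝ) < ρ y}.Countable := fun q => by
    by_cases h : ∃ x ∈ B, ρ x < q
    · obtain ⟨x, hx, hq⟩ := h
      exact (hcon x hx).mono fun y hy => by exact ⟨hy.1, hq.trans hy.2.2⟩
    · simp [h]
  have h2 : {y ∈ B | ∀ x ∈ B, ρ y ≤ ρ x}.Countable := by
    rcases Set.eq_empty_or_nonempty {y ∈ B | ∀ x ∈ B, ρ y ≤ ρ x} with h | ⟨y0, h0⟩
    · rw [h]; exact Set.countable_empty
    · exact (hf (ρ y0)).mono fun y hy => by exact ⟨hy.1, le_antisymm (hy.2 _ h0.1) (h0.2 _ hy.1)⟩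
  refine ((Set.countable_iUnion h1).union h2).mono fun y hy => ?_
  by_cases h : ∀ x ∈ B, ρ y ≤ ρ x
  · exact Or.inr ⟨hy, h⟩
  · push Not at h
    obtain ⟨x, hx, hlt⟩ := h
    obtain ⟨q, hq1, hq2⟩ := exists_rat_btwn hlt
    exact Or.inl (Set.mem_iUnion.2 ⟨q, hy, ⟨x, hx, hq1⟩, hq2⟩)

section main

variable {S I : Type*} [LinearOrder S] [WellFoundedLT S] [LinearOrder I] [WellFoundedLT I]
  (e : S → I → Bool) (r : I → ℝ)

/-- `δ` is the first place where `x` and `y` differ. -/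
def D (x y : S) (δ : I) : Prop := e x δ ≠ e y δ ∧ ∀ i, i < δ → e x i = e y i

/-- The rule for the colouring. -/
def Cond (x y z : S) (δ ε : I) : Prop :=
  (x < y ∧ x < z ∧ r δ < r ε) ∨ (¬ (x < y ∧ x < z) ∧ e x δ = true)

/-- The colouring. -/
noncomputable def col (T : Finset S) : Bool :=
  @decide (∃ x y z δ ε, T = {x, y, z} ∧ D e x y δ ∧ D e x z δ ∧ D e y z ε ∧ Cond e r x y z δ ε)
    (Classical.propDecidable _)

omit [LinearOrder S] [WellFoundedLT S] [WellFoundedLT I] in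
theorem D_uniq {x y : S} {δ ε : I} (h1 : D e x y δ) (h2 : D e x y ε) : δ = ε := by
  rcases lt_trichotomy δ ε with h | h | h
  · exact absurd (h2.2 δ h) h1.1
  · exact h
  · exact absurd (h1.2 ε h) h2.1

omit [LinearOrder S] [WellFoundedLT S] [WellFoundedLT I] in
theorem D_symm {x y : S} {δ : I} (h1 : D e x y δ) : D e y x δ :=
  ⟨h1.1.symm, fun i hi => (h1.2 i hi).symm⟩

omit [LinearOrder S] [WellFoundedLT S] [WellFoundedLT I] in
theorem D_irr {x : S} {δ : I} (h1 : D e x x δ) : False := h1.1 rfl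

omit [LinearOrder S] [WellFoundedLT S] [WellFoundedLT I] in
theorem D_two {x y z : S} {δ δ' : I} (h1 : D e x y δ) (h2 : D e x z δ) (h3 : D e y x δ')
    (h4 : D e y z δ') : False := by
  have := D_uniq e h1 (D_symm e h3)
  subst this
  have a := h1.1
  have b := h2.1
  have c := h4.1
  revert a b c
  cases e x δ <;> cases e y δ <;> cases e z δ <;> simp

omit [WellFoundedLT S] [WellFoundedLT I] in
theorem col_iff {x y z : S} {δ ε : I} (h1 : D e x y δ) (h2 : D e x z δ) (h3 : D e y z ε) :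
    col e r {x, y, z} = true ↔ Cond e r x y z δ ε := by
  unfold col
  rw [@decide_eq_true_iff _ (Classical.propDecidable _)]
  refine ⟨?_, fun h => ⟨x, y, z, δ, ε, rfl, h1, h2, h3, h⟩⟩
  rintro ⟨x', y', z', δ', ε', hT, k1, k2, k3, hc⟩
  have hx : x' ∈ ({x, y, z} : Finset S) := by rw [hT]; simp
  have hy : y' ∈ ({x, y, z} : Finset S) := by rw [hT]; simp
  have hz : z' ∈ ({x, y, z} : Finset S) := by rw [hT]; simp
  simp only [Finset.mem_insert, Finset.mem_singleton] at hx hy hz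
  rcases hx with rfl | rfl | rfl <;> rcases hy with rfl | rfl | rfl <;>
    rcases hz with rfl | rfl | rfl <;>
    first
      | exact (D_irr e k1).elim
      | exact (D_irr e k2).elim
      | exact (D_irr e k3).elim
      | exact (D_two e h1 h2 k1 k2).elim
      | exact (D_two e h1 h2 k2 k1).elim
      | exact (D_two e h2 h1 k1 k2).elim
      | exact (D_two e h2 h1 k2 k1).elim
      | (rw [D_uniq e h1 k1, D_uniq e h3 k3]; exact hc)
      | (rw [D_uniq e h1 k2, D_uniq e h3 (D_symm e k3)]; unfold Cond at hc ⊢; tauto)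

/-- Homogeneity. -/
def Hom (i : Bool) (Y : Finset S) : Prop := ∀ T ⊆ Y, T.card = 3 → col e r T = i

omit [WellFoundedLT S] [WellFoundedLT I] in
theorem hom_empty (i : Bool) : Hom e r i ∅ := fun T hT h3 => by
  rw [Finset.subset_empty.1 hT] at h3
  simp at h3

omit [WellFoundedLT S] [WellFoundedLT I] in
theorem hom_insert {i : Bool} {Y : Finset S} {x : S} (hY : Hom e r i Y)
    (h : ∀ y ∈ Y, ∀ z ∈ Y, y ≠ z → col e r {x, y, z} = i) : Hom e r i (insert x Y) := by
  intro T hT h3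
  by_cases hx : x ∈ T
  · have h2 : (T.erase x).card = 2 := by rw [Finset.card_erase_of_mem hx, h3]
    obtain ⟨y, z, hyz, he⟩ := Finset.card_eq_two.1 h2
    have hs : T.erase x ⊆ Y := Finset.subset_insert_iff.1 hT
    rw [← Finset.insert_erase hx, he]
    exact h y (hs (by simp [he])) z (hs (by simp [he])) hyz
  · exact hY T ((Finset.subset_insert_iff_of_notMem hx).1 hT) h3

/-- Splitting. -/
def Split (B : Set S) : Prop :=
  ∃ (δ : I) (P : Bool → Set S), (∀ b, P b ⊆ B ∧ ¬ (P b).Countable ∧ ∀ x ∈ P b, e x δ = b) ∧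
    ∀ b b', ∀ x ∈ P b, ∀ y ∈ P b', ∀ j, j < δ → e x j = e y j

omit [LinearOrder S] [WellFoundedLT S] in
theorem D_ex (he : Function.Injective e) {x y : S} (h : x ≠ y) : ∃ δ, D e x y δ := by
  have : {δ | e x δ ≠ e y δ}.Nonempty := by
    by_contra hc
    exact h (he (funext fun δ => by
      by_contra h2
      exact hc ⟨δ, h2⟩))
  obtain ⟨δ, h1, h2⟩ := (wellFounded_lt (α := I)).has_min _ this
  exact ⟨δ, h1, fun i hi => by
    by_contra h3
    exact h2 i h3 hi⟩

omit [WellFoundedLT S] in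
theorem case1 (he : Function.Injective e) (A : Set S) (hA : ∀ x ∈ A, {y ∈ A | y ≤ x}.Countable)
    (hs : ∀ B ⊆ A, ¬ B.Countable → Split e B) (i : Bool) (n : ℕ) :
    ∀ B ⊆ A, ¬ B.Countable → ∃ Y : Finset S, ↑Y ⊆ B ∧ Y.card = n ∧ Hom e r i Y := by
  induction n with
  | zero => exact fun B _ _ => ⟨∅, by simp, rfl, hom_empty e r i⟩
  | succ n ih =>
    intro B hBA hB
    obtain ⟨δ, P, hP, hag⟩ := hs B hBA hB
    obtain ⟨Y, hY, hc, hh⟩ := ih (P (!i)) ((hP _).1.trans hBA) (hP _).2.1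
    have hcount : (⋃ y ∈ Y, {w ∈ A | w ≤ y}).Countable :=
      Y.countable_toSet.biUnion fun y hy => hA y (hBA ((hP _).1 (hY hy)))
    obtain ⟨x, hx, hx'⟩ : ∃ x ∈ P i, x ∉ ⋃ y ∈ Y, {w ∈ A | w ≤ y} := by
      by_contra hcon
      push Not at hcon
      exact (hP i).2.1 (hcount.mono hcon)
    have hlt : ∀ y ∈ Y, y < x := fun y hy => by
      by_contra hcon
      exact hx' (Set.mem_biUnion hy ⟨hBA ((hP _).1 hx), not_lt.1 hcon⟩)
    have hD : ∀ y ∈ Y, D e x y δ := fun y hy =>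
      ⟨by rw [(hP _).2.2 x hx, (hP _).2.2 y (hY hy)]; cases i <;> simp,
        hag _ _ x hx y (hY hy)⟩
    refine ⟨insert x Y, ?_, ?_, hom_insert e r hh fun y hy z hz hyz => ?_⟩
    · rw [Finset.coe_insert]
      exact Set.insert_subset ((hP _).1 hx) (hY.trans (hP _).1)
    · rw [Finset.card_insert_of_notMem (fun h => lt_irrefl _ (hlt x h)), hc]
    · obtain ⟨ε, hε⟩ := D_ex e he hyz
      have h1 := col_iff e r (hD y hy) (hD z hz) hε
      have h2 : ¬ x < y := not_lt.2 (hlt y hy).le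
      have h3 := (hP _).2.2 x hx
      unfold Cond at h1
      rw [h3] at h1
      cases i <;> simpa [h2] using h1

omit [WellFoundedLT S] [WellFoundedLT I] in
theorem case2 (hr : Function.Injective r) (A : Set S) (δ : S → I)
    (hA : ∀ x ∈ A, {y ∈ A | y ≤ x}.Countable) (hA' : ∀ x ∈ A, {y ∈ A | δ y ≤ δ x}.Countable)
    (hD : ∀ x ∈ A, ∀ y ∈ A, δ x < δ y → D e x y (δ x)) (i : Bool) (n : ℕ) :
    ∀ B ⊆ A, ¬ B.Countable → ∃ Y : Finset S, ↑Y ⊆ B ∧ Y.card = n ∧ Hom e r i Y ∧
      ∀ y ∈ Y, ∀ z ∈ Y, y ≠ z → δ y ≠ δ z := by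
  induction n with
  | zero => exact fun B _ _ => ⟨∅, by simp, rfl, hom_empty e r i, by simp⟩
  | succ n ih =>
    intro B hBA hB
    let ρ : S → ℝ := fun y => if i then r (δ y) else - r (δ y)
    have hρ : ∀ y z, ρ y = ρ z → δ y = δ z := fun y z h => by
      apply hr
      cases i <;> simpa [ρ] using h
    obtain ⟨x, hx, hu⟩ := upper ρ B hB fun t => by
      rcases Set.eq_empty_or_nonempty {y ∈ B | ρ y = t} with h | ⟨y0, h0⟩
      · rw [h]; exact Set.countable_empty
      · exact (hA' y0 (hBA h0.1)).mono fun y hy => by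
          exact ⟨hBA hy.1, (hρ _ _ (hy.2.trans h0.2.symm)).le⟩
    obtain ⟨Y, hY, hc, hh, hd⟩ := ih {y ∈ B | ρ x < ρ y ∧ x < y ∧ δ x < δ y}
      (fun y hy => hBA hy.1) fun hcon => hu (by
        refine ((hcon.union (hA x (hBA hx))).union (hA' x (hBA hx))).mono fun y hy => ?_
        by_cases h1 : x < y
        · by_cases h2 : δ x < δ y
          · exact Or.inl (Or.inl ⟨hy.1, hy.2, h1, h2⟩)
          · exact Or.inr ⟨hBA hy.1, not_lt.1 h2⟩
        · exact Or.inl (Or.inr ⟨hBA hy.1, not_lt.1 h1⟩))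
    refine ⟨insert x Y, ?_, ?_, hom_insert e r hh fun y hy z hz hyz => ?_, ?_⟩
    · rw [Finset.coe_insert]
      exact Set.insert_subset hx fun y hy => (hY hy).1
    · rw [Finset.card_insert_of_notMem (fun h => lt_irrefl _ (hY h).2.2.1), hc]
    · obtain ⟨y1, y2, y3, y4⟩ := hY hy
      obtain ⟨z1, z2, z3, z4⟩ := hY hz
      obtain ⟨w, w2, hw⟩ : ∃ w, ρ x < ρ w ∧ D e y z (δ w) := by
        rcases lt_or_gt_of_ne (hd y hy z hz hyz) with h | h
        · exact ⟨y, y2, hD y (hBA y1) z (hBA z1) h⟩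
        · exact ⟨z, z2, D_symm e (hD z (hBA z1) y (hBA y1) h)⟩
      have h1 := col_iff e r (hD x (hBA hx) y (hBA y1) y4) (hD x (hBA hx) z (hBA z1) z4) hw
      unfold Cond at h1
      cases i
      · have : ¬ r (δ x) < r (δ w) := by
          simp only [ρ] at w2
          simp at w2
          exact not_lt.2 w2.le
        simpa [y3, z3, this] using h1
      · have : r (δ x) < r (δ w) := by simpa [ρ] using w2
        simpa [y3, z3, this] using h1
    · intro y hy z hz hyz
      rw [Finset.mem_insert] at hy hz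
      rcases hy with rfl | hy <;> rcases hz with rfl | hz
      · exact absurd rfl hyz
      · exact (hY hz).2.2.2.ne
      · exact (hY hy).2.2.2.ne'
      · exact hd y hy z hz hyz

theorem main (he : Function.Injective e) (hr : Function.Injective r) (A₀ : Set S)
    (h0 : ¬ A₀.Countable) (i : Bool) (n : ℕ) :
    ∃ Y : Finset S, ↑Y ⊆ A₀ ∧ Y.card = n ∧ Hom e r i Y := by
  classical
  obtain ⟨A, hA0, hAu, hA⟩ := thin (fun x : S => x) A₀ h0 fun j =>
    (Set.countable_singleton j).mono fun y hy => hy.2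
  by_cases hs : ∀ B ⊆ A, ¬ B.Countable → Split e B
  · obtain ⟨Y, h1, h2, h3⟩ := case1 e r he A hA hs i n A subset_rfl hAu
    exact ⟨Y, h1.trans hA0, h2, h3⟩
  push Not at hs
  obtain ⟨B, hBA, hB, hns⟩ := hs
  let C : S → I → Set S := fun x d => {y ∈ B | ∀ j, j ≤ d → e y j = e x j}
  have agree : ∀ x y d, ¬ (C x d).Countable → ¬ (C y d).Countable → e x d = e y d := by
    intro x y d hx hy
    by_contra hne
    obtain ⟨d', hd'⟩ := D_ex e he (x := x) (y := y) (fun h => hne (by rw [h]))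
    have hle : d' ≤ d := not_lt.1 fun h => hne (hd'.2 d h)
    apply hns
    refine ⟨d', fun b => if e x d' = b then C x d else C y d, fun b => ?_, ?_⟩
    · by_cases hb : e x d' = b
      · simp only [if_pos hb]
        exact ⟨fun w hw => hw.1, hx, fun w hw => (hw.2 d' hle).trans hb⟩
      · simp only [if_neg hb]
        refine ⟨fun w hw => hw.1, hy, fun w hw => (hw.2 d' hle).trans ?_⟩
        have := hd'.1
        revert this hb
        cases e x d' <;> cases e y d' <;> cases b <;> simp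
    · have key : ∀ b, ∀ w ∈ (if e x d' = b then C x d else C y d), ∀ j, j < d' →
          e w j = e x j := fun b w hw j hj => by
        split_ifs at hw
        · exact hw.2 j (hj.le.trans hle)
        · exact (hw.2 j (hj.le.trans hle)).trans (hd'.2 j hj).symm
      exact fun b b' v hv w hw j hj => (key b v hv j hj).trans (key b' w hw j hj).symm
  let B1 : Set S := {x ∈ B | ∃ d, (C x d).Countable}
  have hB1 : ¬ B1.Countable := fun hc => hB (by
    have hsub : {x ∈ B | ∀ d, ¬ (C x d).Countable}.Subsingleton := fun x hx y hy =>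
      he (funext fun d => agree x y d (hx.2 d) (hy.2 d))
    refine (hc.union hsub.countable).mono fun x hx => ?_
    by_cases h : ∃ d, (C x d).Countable
    · exact Or.inl ⟨hx, h⟩
    · push Not at h
      exact Or.inr ⟨hx, h⟩)
  obtain ⟨x0, -, d0, -⟩ : B1.Nonempty := Set.nonempty_iff_ne_empty.2 fun h => hB1 (by simp [h])
  have hδ : ∀ x, ∃ d, x ∈ B1 → (C x d).Countable ∧ ∀ j, j < d → ¬ (C x j).Countable := fun x => by
    by_cases hx : x ∈ B1
    · obtain ⟨d, h1, h2⟩ := (wellFounded_lt (α := I)).has_min {d | (C x d).Countable} hx.2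
      exact ⟨d, fun _ => ⟨h1, fun j hj hc => h2 j hc hj⟩⟩
    · exact ⟨d0, fun h => absurd h hx⟩
  choose δ hδ using hδ
  have hlow : ∀ x ∈ B1, ∀ y ∈ B1, ∀ j, j < δ x → j < δ y → e x j = e y j :=
    fun x hx y hy j h1 h2 => agree x y j ((hδ x hx).2 j h1) ((hδ y hy).2 j h2)
  have hfib : ∀ d, {y ∈ B1 | δ y = d}.Countable := fun d => by
    have h1 : ∀ b : Bool, {y ∈ B1 | δ y = d ∧ e y d = b}.Countable := fun b => by
      rcases Set.eq_empty_or_nonempty {y ∈ B1 | δ y = d ∧ e y d = b} with h | ⟨y0, h0⟩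
      · rw [h]; exact Set.countable_empty
      · refine (hδ y0 h0.1).1.mono fun y hy => ?_
        refine ⟨hy.1.1, fun j hj => ?_⟩
        rcases hj.lt_or_eq with h | h
        · exact hlow y hy.1 y0 h0.1 j (by rw [hy.2.1, ← h0.2.1]; exact h) h
        · rw [h, h0.2.1, hy.2.2, h0.2.2]
    refine (Set.countable_iUnion h1).mono fun y hy => ?_
    exact Set.mem_iUnion.2 ⟨e y d, hy.1, hy.2, rfl⟩
  obtain ⟨B2, h21, h2u, h2⟩ := thin δ B1 hB1 hfib
  have hB2A : B2 ⊆ A := fun y hy => hBA (h21 hy).1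
  obtain ⟨Y, h1, h3, h4, -⟩ := case2 e r hr B2 δ
    (fun x hx => (hA x (hB2A hx)).mono fun y hy => by exact ⟨hB2A hy.1, hy.2⟩) h2
    (fun x hx y hy hlt => ⟨fun heq => (hδ y (h21 hy)).2 _ hlt
      ((hδ x (h21 hx)).1.mono fun w hw => by exact ⟨hw.1, fun j hj => (hw.2 j hj).trans (by
        rcases hj.lt_or_eq with h | h
        · exact (hlow x (h21 hx) y (h21 hy) j h (h.trans hlt)).symm
        · rw [h, heq])⟩),
      fun j hj => hlow x (h21 hx) y (h21 hy) j hj (hj.trans hlt)⟩) i n B2 subset_rfl h2u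
  exact ⟨Y, h1.trans (hB2A.trans hA0), h3, h4⟩

end main

/-- A copy of the reals, to be well-ordered. -/
def W : Type := ℝ

/-- The triples of a set of size `2^2^ℵ₀` can be 2-coloured so that every subset of size `ℵ₁`
contains, for every `n` and each colour, an `n`-element set all of whose triples have that
colour. -/
theorem result (S : Type u) (hS : #S = 2 ^ (2 ^ ℵ₀ : Cardinal.{u})) :
    ∃ c : Finset S → Bool, ∀ A : Set S, #A = ℵ₁ → ∀ (n : ℕ) (i : Bool),
      ∃ Y : Finset S, ↑Y ⊆ A ∧ Y.card = n ∧ ∀ T ⊆ Y, T.card = 3 → c T = i := by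
  have : Nonempty (S ↪ (W → Bool)) := by
    rw [← Cardinal.lift_mk_le', hS]
    have : #W = 𝔠 := mk_real
    simp [this]
  obtain ⟨e⟩ := this
  letI : LinearOrder S := @linearOrderOfSTO _ WellOrderingRel _ (Classical.decRel _)
  haveI : WellFoundedLT S := ⟨(WellOrderingRel.isWellOrder (α := S)).wf⟩
  letI : LinearOrder W := @linearOrderOfSTO _ WellOrderingRel _ (Classical.decRel _)
  haveI : WellFoundedLT W := ⟨(WellOrderingRel.isWellOrder (α := W)).wf⟩
  refine ⟨col e (fun w : W => (w : ℝ)), fun A hA n i => ?_⟩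
  refine main e _ e.injective (fun _ _ h => h) A (fun hc => ?_) i n
  rw [← Cardinal.le_aleph0_iff_set_countable, hA] at hc
  exact absurd hc (not_le.2 aleph0_lt_aleph_one)

end Pool.Agent.Results.MP_dc3585_lc.Finite
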